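import Pool.Agent.Lib.MP_3cd67d_lc.Reduction

/-!
# The grid digraph is planar
-/

namespace Pool.Agent.EPDP

namespace Lay

variable {G : Lay}

theorem R_not_L {x y : ℕ} (h : G.R x y) : ¬ G.L x y := by
  intro h'
  have hM := G.hM
  unfold L at h'
  rcases h with h | ⟨h1, h2, h3, _⟩ | (h | h) | h | h
  · rcases h' with h' | ⟨k1, k2, k3⟩ | h' | h' | h'
    · omega
    · omega
    · omega
    · omega
    · omega
  · rcases h' with h' | ⟨k1, k2, k3⟩ | h' | h' | h'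
    · omega
    · rcases h3 with h3 | h3 <;> rcases k3 with k3 | k3 <;> omega
    · omega
    · omega
    · omega
  · have ht := G.tile h
    rcases h' with h' | ⟨k1, k2, k3⟩ | h' | h' | h'
    · omega
    · omega
    · omega
    · omega
    · omega
  · have ht := G.tile h
    rcases h' with h' | ⟨k1, k2, k3⟩ | h' | h' | h'
    · omega
    · omega
    · omega
    · omega
    · omega
  · rcases h' with h' | ⟨k1, k2, k3⟩ | h' | h' | h' <;> omega
  · rcases h' with h' | ⟨k1, k2, k3⟩ | h' | h' | h' <;> omega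

theorem U_not_D {x y : ℕ} (h : G.U x y) : ¬ G.D x y := by
  intro h'
  have hM := G.hM
  unfold D at h'
  rcases h with h | ⟨h1, h2, h3⟩ | ⟨h1, h2⟩ | ⟨h0, h⟩
  · rcases h' with h' | h' | h' <;> omega
  · rcases h' with h' | h' | h' <;> omega
  · rcases h' with h' | h' | h' <;> omega
  · have ht := G.tile h
    rcases h' with h' | h' | h'
    · omega
    · omega
    · omega

/-- The position of a vertex. -/
def pos (v : ℕ) : ℝ × ℝ := ((v.unpair.1 : ℝ), (v.unpair.2 : ℝ))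

/-- The segment of an arc. -/
noncomputable def seg (a : ℕ × ℕ) (t : ℝ) : ℝ × ℝ :=
  ((1 - t) * (pos a.1).1 + t * (pos a.2).1, (1 - t) * (pos a.1).2 + t * (pos a.2).2)

/-- The segment of an arc given by its lower left end point and its direction. -/
theorem seg_form {a : ℕ × ℕ} (h : G.Arc a.1.unpair a.2.unpair) :
    (∃ x y : ℕ, (∀ t, seg a t = ((x : ℝ) + t, (y : ℝ))) ∧ a.1.unpair = (x, y) ∧
      a.2.unpair = (x + 1, y) ∧ G.R x y) ∨
    (∃ x y : ℕ, (∀ t, seg a t = ((x : ℝ) + (1 - t), (y : ℝ))) ∧ a.1.unpair = (x + 1, y) ∧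
      a.2.unpair = (x, y) ∧ G.L x y) ∨
    (∃ x y : ℕ, (∀ t, seg a t = ((x : ℝ), (y : ℝ) + t)) ∧ a.1.unpair = (x, y) ∧
      a.2.unpair = (x, y + 1) ∧ G.U x y) ∨
    (∃ x y : ℕ, (∀ t, seg a t = ((x : ℝ), (y : ℝ) + (1 - t))) ∧ a.1.unpair = (x, y + 1) ∧
      a.2.unpair = (x, y) ∧ G.D x y) := by
  obtain ⟨u, v⟩ := a
  simp only [seg, pos] at h ⊢
  generalize u.unpair = p at h ⊢
  generalize v.unpair = q at h ⊢
  obtain ⟨x, y⟩ := p
  obtain ⟨x', y'⟩ := q
  rcases h with ⟨h1, h2, h⟩ | ⟨h1, h2, h⟩ | ⟨h1, h2, h⟩ | ⟨h1, h2, h⟩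
  · simp only at h1 h2 h ⊢
    subst h1 h2
    refine Or.inl ⟨x, y', fun t => ?_, rfl, rfl, h⟩
    push_cast
    ext <;> simp only <;> ring
  · simp only at h1 h2 h ⊢
    subst h1 h2
    refine Or.inr (Or.inl ⟨x', y', fun t => ?_, rfl, rfl, h⟩)
    push_cast
    ext <;> simp only <;> ring
  · simp only at h1 h2 h ⊢
    subst h1 h2
    refine Or.inr (Or.inr (Or.inl ⟨x', y, fun t => ?_, rfl, rfl, h⟩))
    push_cast
    ext <;> simp only <;> ring
  · simp only at h1 h2 h ⊢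
    subst h1 h2
    refine Or.inr (Or.inr (Or.inr ⟨x', y', fun t => ?_, rfl, rfl, h⟩))
    push_cast
    ext <;> simp only <;> ring

/-- The key of an arc: horizontal or vertical, and the lower left end point. -/
theorem seg_key {a : ℕ × ℕ} (h : G.Arc a.1.unpair a.2.unpair) {t : ℝ} (ht : t ∈ Set.Ioo (0 : ℝ) 1) :
    ∃ s ∈ Set.Ioo (0 : ℝ) 1, ∃ x y : ℕ,
      (seg a t = ((x : ℝ) + s, (y : ℝ)) ∧
        ((a.1.unpair = (x, y) ∧ a.2.unpair = (x + 1, y) ∧ G.R x y) ∨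
          (a.1.unpair = (x + 1, y) ∧ a.2.unpair = (x, y) ∧ G.L x y))) ∨
      (seg a t = ((x : ℝ), (y : ℝ) + s) ∧
        ((a.1.unpair = (x, y) ∧ a.2.unpair = (x, y + 1) ∧ G.U x y) ∨
          (a.1.unpair = (x, y + 1) ∧ a.2.unpair = (x, y) ∧ G.D x y))) := by
  have ht' : 1 - t ∈ Set.Ioo (0 : ℝ) 1 := ⟨by linarith [ht.2], by linarith [ht.1]⟩
  rcases seg_form h with ⟨x, y, h1, h2, h3, h4⟩ | ⟨x, y, h1, h2, h3, h4⟩ | ⟨x, y, h1, h2, h3, h4⟩ |
    ⟨x, y, h1, h2, h3, h4⟩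
  · exact ⟨t, ht, x, y, Or.inl ⟨h1 t, Or.inl ⟨h2, h3, h4⟩⟩⟩
  · exact ⟨1 - t, ht', x, y, Or.inl ⟨h1 t, Or.inr ⟨h2, h3, h4⟩⟩⟩
  · exact ⟨t, ht, x, y, Or.inr ⟨h1 t, Or.inl ⟨h2, h3, h4⟩⟩⟩
  · exact ⟨1 - t, ht', x, y, Or.inr ⟨h1 t, Or.inr ⟨h2, h3, h4⟩⟩⟩

theorem nat_add_ne {x z : ℕ} {s : ℝ} (hs : s ∈ Set.Ioo (0 : ℝ) 1) : (x : ℝ) + s ≠ z := by
  intro h
  have h1 : (x : ℝ) < z := by linarith [hs.1]
  have h2 : (z : ℝ) < x + 1 := by linarith [hs.2]
  have h1' : x < z := by exact_mod_cast h1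
  have h2' : z < x + 1 := by exact_mod_cast h2
  omega

theorem nat_add_inj {x z : ℕ} {s u : ℝ} (hs : s ∈ Set.Ioo (0 : ℝ) 1) (hu : u ∈ Set.Ioo (0 : ℝ) 1)
    (h : (x : ℝ) + s = (z : ℝ) + u) : x = z := by
  have h1 : (x : ℝ) < z + 1 := by linarith [hs.1, hu.2]
  have h2 : (z : ℝ) < x + 1 := by linarith [hs.2, hu.1]
  have h1' : x < z + 1 := by exact_mod_cast h1
  have h2' : z < x + 1 := by exact_mod_cast h2
  omega

theorem pair_eq_of_unpair {a b : ℕ × ℕ} (h1 : a.1.unpair = b.1.unpair)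
    (h2 : a.2.unpair = b.2.unpair) : a = b := by
  obtain ⟨u, v⟩ := a
  obtain ⟨u', v'⟩ := b
  simp only at h1 h2
  have e1 := congrArg (fun p : ℕ × ℕ => Nat.pair p.1 p.2) h1
  have e2 := congrArg (fun p : ℕ × ℕ => Nat.pair p.1 p.2) h2
  simp only [Nat.pair_unpair] at e1 e2
  rw [e1, e2]

variable (G) in
theorem dig_planar : G.dig.Planar := by
  refine ⟨pos, seg, ?_, ?_⟩
  · intro u _ v _ h
    simp only [pos, Prod.mk.injEq, Nat.cast_inj] at h
    have := congrArg (fun p : ℕ × ℕ => Nat.pair p.1 p.2) (Prod.ext h.1 h.2)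
    simpa only [Nat.pair_unpair] using this
  · rintro a ha
    have hA : G.Arc a.1.unpair a.2.unpair := mem_arcs.1 ha
    refine ⟨?_, ?_, ?_, ?_, ?_, ?_⟩
    · apply Continuous.continuousOn
      unfold seg
      fun_prop
    · intro t _ u _ htu
      rcases seg_form hA with ⟨x, y, h1, _⟩ | ⟨x, y, h1, _⟩ | ⟨x, y, h1, _⟩ | ⟨x, y, h1, _⟩
      all_goals
        rw [h1, h1, Prod.mk.injEq] at htu
        linarith [htu.1, htu.2]
    · simp [seg]
    · simp [seg]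
    · intro t ht v _ hv
      obtain ⟨s, hs, x, y, ⟨h1, _⟩ | ⟨h1, _⟩⟩ := seg_key hA ht
      · rw [h1] at hv
        exact nat_add_ne hs (Prod.mk.inj hv).1
      · rw [h1] at hv
        exact nat_add_ne hs (Prod.mk.inj hv).2
    · intro b hb hba t ht u hu h
      have hB : G.Arc b.1.unpair b.2.unpair := mem_arcs.1 hb
      obtain ⟨s, hs, x, y, ⟨h1, h2⟩ | ⟨h1, h2⟩⟩ := seg_key hA ht
      · obtain ⟨s', hs', x', y', ⟨h3, h4⟩ | ⟨h3, h4⟩⟩ := seg_key hB hu
        · rw [h1, h3, Prod.mk.injEq] at h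
          have e1 : x = x' := nat_add_inj hs hs' h.1
          have e2 : y = y' := by exact_mod_cast h.2
          subst e1 e2
          rcases h2 with ⟨k1, k2, k3⟩ | ⟨k1, k2, k3⟩ <;> rcases h4 with ⟨l1, l2, l3⟩ | ⟨l1, l2, l3⟩
          · exact hba (pair_eq_of_unpair (l1.trans k1.symm) (l2.trans k2.symm))
          · exact R_not_L k3 l3
          · exact R_not_L l3 k3
          · exact hba (pair_eq_of_unpair (l1.trans k1.symm) (l2.trans k2.symm))
        · rw [h1, h3, Prod.mk.injEq] at h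
          exact nat_add_ne hs h.1
      · obtain ⟨s', hs', x', y', ⟨h3, h4⟩ | ⟨h3, h4⟩⟩ := seg_key hB hu
        · rw [h1, h3, Prod.mk.injEq] at h
          exact nat_add_ne hs h.2
        · rw [h1, h3, Prod.mk.injEq] at h
          have e1 : x = x' := by exact_mod_cast h.1
          have e2 : y = y' := nat_add_inj hs hs' h.2
          subst e1 e2
          rcases h2 with ⟨k1, k2, k3⟩ | ⟨k1, k2, k3⟩ <;> rcases h4 with ⟨l1, l2, l3⟩ | ⟨l1, l2, l3⟩
          · exact hba (pair_eq_of_unpair (l1.trans k1.symm) (l2.trans k2.symm))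
          · exact U_not_D k3 l3
          · exact U_not_D l3 k3
          · exact hba (pair_eq_of_unpair (l1.trans k1.symm) (l2.trans k2.symm))

end Lay

end Pool.Agent.EPDP
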